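import Mathlib
import Pool.Agent.H.MP_c522d4_al.Main

set_option autoImplicit false

namespace Pool.Agent.Results.MP_c522d4_al.Q1

open Pool.Agent.H.MP_c522d4_al

theorem result : ∀ (n : ℕ) (ε : ℝ), 0 < ε → ∃ (G : Type) (_ : Group G) (_ : Finite G),
    Group.IsSolvable G ∧ (∀ i < n, fit G i ≠ ⊤) ∧ zprop G ≤ ε :=
  main

end Pool.Agent.Results.MP_c522d4_al.Q1
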